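import Pool.Agent.H70.PNT.Ranks
import Pool.Agent.H70.RZT.All

/-!
# PNT: the main theorem
-/

set_option autoImplicit false

namespace Pool.PNT

open Polynomial NumberField IsDedekindDomain

/-- The law of Poonen and Rains up to `ε` for families of positive density of elliptic curves over
every number field, with bounds over infinitely many extensions, and all 2-Selmer ranks in positive
proportion. -/
theorem main_thm (K : Type) [Field K] [NumberField K] : Main K ∧ Ranks K :=
  ⟨main_of' Pool.RZT.All.h_ctrn Pool.PNF.sln Pool.NF.H19.irrn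
      (Pool.RZT.exztn (Pool.RZT.exdtn Pool.NF.prz)) Pool.RZT.spln
      (Pool.PNM.main_of (Pool.PNF.All.p_law K)),
    ranks_of' Pool.NF.alln Pool.RZT.All.h_ctrn Pool.PNF.sln Pool.NF.H19.irrn
      (Pool.RZT.exztn (Pool.RZT.exdtn Pool.NF.prz)) Pool.RZT.spln Pool.RZT.ramn Pool.T1.zirs
      (Pool.PNF.All.p_law K)⟩

end Pool.PNT
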