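import Pool.Agent.H70.PNT.Defs
import Pool.Agent.H70.RZT.S2
import Pool.Agent.H29.PNM.Bridge
import Pool.Agent.H52.RZT.FINTN
import Pool.Agent.H54.RZT.KKN
import Pool.Agent.H91.PNF.RNKN

/-!
# PNT: the two forms of the statements
-/

set_option autoImplicit false
set_option linter.unusedSectionVars false

namespace Pool.PNT

open Polynomial NumberField IsDedekindDomain Pool.PNM

section Ext

variable {K : Type} [Field K] [NumberField K]

theorem abv_iff (P : Pl K) (E : Type) [Field E] [Algebra K E] (L : Type) [Field L]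
    (O : ValuationSubring L) (ι : E →+* L) :
    Pool.T1.AbvV E (Pool.T1.vP K P) L O ι ↔ Abv K P E L O ι := by
  unfold Pool.T1.AbvV Abv
  rw [cpl_iff]

theorem spl_iff (P : Pl K) (E : Type) [Field E] [Algebra K E] :
    Pool.T1.SplV E (Pool.T1.vP K P) ↔ Spl K P E := by
  unfold Pool.T1.SplV Spl
  simp only [abv_iff]

theorem unr_iff (P : Pl K) (E : Type) [Field E] [Algebra K E] :
    Pool.T1.UnrV E (Pool.T1.vP K P) ↔ Unr K P E := by
  unfold Pool.T1.UnrV Unr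
  simp only [abv_iff]

theorem two_self : Two K K :=
  ⟨inferInstance, inferInstance, ⟨0, by rw [Module.finrank_self, pow_zero]⟩,
    fun P _ => (spl_iff P K).1 (Pool.RZT.splV_self _)⟩

theorem ext_tw {T : Finset (Pl K)} {f : (𝓞 K)[X]} {E : Type} [Field E] [Algebra K E]
    (h : Ext K T f E) : Pool.RZT.Tw K T f E := by
  obtain ⟨⟨h1, h2, h3, h4⟩, h5, h6⟩ := h
  exact ⟨h1, h2, h3, fun P hP => (spl_iff P E).2 (h5 P hP), fun P hP => (spl_iff P E).2 (h4 P hP),
    fun P => (h6 P).imp_left (unr_iff P E).2⟩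

theorem selE_sub {F : Type} [Field F] (q : F[X]) : Sel q ⊆ Pool.PRK.SelG q := by
  rw [← sel_eq]
  rintro ξ ⟨u, p, h1, h2, h3, h4, -⟩
  exact ⟨u, p, h1, h2, h3, h4⟩

open Classical in
/-- The bound over the extension, from the bound for the Selmer group. -/
theorem rk_of {q : K[X]} (hm : q.Monic) (hd : q.natDegree = 3) (hi : Irreducible q) {r : ℕ}
    (E : Type) [Field E] [Algebra K E] (hfd : FiniteDimensional K E)
    (h2 : ∃ m : ℕ, Module.finrank K E = 2 ^ m)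
    (hfin : (Pool.PRK.SelG (q.map (algebraMap K E))).Finite)
    (hs : (Pool.PRK.SelG (q.map (algebraMap K E))).ncard ≤ 2 ^ (r * Module.finrank K E)) :
    Rk q r E := by
  obtain ⟨m, hm2⟩ := h2
  have : NumberField E := NumberField.of_module_finite K E
  have hm' : (q.map (algebraMap K E)).Monic := hm.map _
  have hd' : (q.map (algebraMap K E)).natDegree = 3 := by rw [hm.natDegree_map, hd]
  have hi' : Irreducible (q.map (algebraMap K E)) :=
    Pool.RZT.irred_of_two_pow E hm2 hm hd hi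
  have h1 := mw_of hm' hd' hi'
  have hf : (Sel (q.map (algebraMap K E))).Finite := hfin.subset (selE_sub _)
  have hc : (Sel (q.map (algebraMap K E))).ncard ≤ 2 ^ (r * Module.finrank K E) :=
    (Set.ncard_le_ncard (selE_sub _) hfin).trans hs
  obtain ⟨h3, h4, -⟩ := h1 hf
  refine ⟨hf, hc, h3, (Nat.pow_le_pow_iff_right (by norm_num)).1 (h4.trans hc), fun hr => ?_⟩
  refine odd_ord h1 (le_antisymm ?_ ?_)
  · rw [hr, zero_mul, pow_zero] at hc
    exact hc
  · exact (Set.ncard_pos hf).2 ⟨1, one_mem_sel _⟩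

/-- The Selmer groups of the twists of the elements of the family. -/
theorem selG_tw (hSLN : Pool.PNF.SLNStmt) {D : Data K} (hD : D.Ok) {Y : ℕ} (hY : 1 ≤ Y)
    {f : (𝓞 K)[X]} (hf : f ∈ Fam D Y) {d : 𝓞 K} (hd : d ≠ 0) :
    Pool.PRK.SelG (tw d f) = Sel (tw d f) :=
  (hSLN K (toD D) Y hD hY f hf.1 d hd).symm.trans (sel_eq (tw d f))

/-- The bounds for the twists of the elements of the family. -/
theorem tow_of (hCTR : Pool.RZT.CTRNStmt) (hSLN : Pool.PNF.SLNStmt) (hIRR : Pool.NF.IRRNStmt)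
    {D : Data K} (hD : D.Ok) {dS : Finset (Pl K) → 𝓞 K} (hdS : Tws D dS) : Tow D dS := by
  intro Y hY f hf S hS r hr E _ _ hE
  have hd0 : dS S ≠ 0 := (hdS S hS).1.1
  have hsel := selG_tw hSLN hD hY hf hd0
  have htw := ext_tw hE
  have hfm : f.Monic := hf.1.1
  have hfn : f.natDegree = 3 := hf.1.2.1
  have hfin : (Pool.PRK.SelG (tw (dS S) f)).Finite := by
    rw [hsel]
    exact Set.finite_of_ncard_pos (by rw [hr]; positivity)
  obtain ⟨h1, h2⟩ := hCTR K (toD D) Y hD f hf S hS (dS S) (hdS S hS) hfin E htw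
  have h2' : (Pool.PRK.SelG ((tw (dS S) f).map (algebraMap K E))).ncard ≤
      (Pool.PRK.SelG (tw (dS S) f)).ncard ^ Module.finrank K E := h2
  rw [hsel, hr, ← pow_mul] at h2'
  have hirr : Irreducible (Pool.T1.fk K f) := hIRR K (toD D) Y hD f hf.1
  refine rk_of (q := tw (dS S) f) ?_ ?_ (Pool.T1.irr_scale hd0 hfm hirr) E htw.1 htw.2.2.1 h1 h2'
  · exact ((monic_scaleRoots_iff (dS S)).2 hfm).map _
  · unfold tw
    rw [((monic_scaleRoots_iff (dS S)).2 hfm).natDegree_map, natDegree_scaleRoots, hfn]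

theorem main_of' (hCTR : Pool.RZT.CTRNStmt) (hSLN : Pool.PNF.SLNStmt) (hIRR : Pool.NF.IRRNStmt)
    (hEXZ : Pool.RZT.EXZTNStmt) (hSPL : Pool.RZT.SPLNStmt) (h : Pool.PNM.Main K) : Main K := by
  obtain ⟨A, hA⟩ := h
  refine ⟨A, fun T' hT' ε hε => ?_⟩
  obtain ⟨k₀, hk₀⟩ := hA T' hT' ε hε
  refine ⟨k₀, fun k hk hk' => ?_⟩
  obtain ⟨b, ⟨D0, hD0, hD0T, -, -, -⟩, hb⟩ := hk₀ k hk hk'
  refine ⟨b, fun E₀ _ _ hE₀ _ => ?_, fun D hD hDT hDk hDb => ?_⟩
  · obtain ⟨h1, h2, h3, h4⟩ := hE₀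
    obtain ⟨D, g1, g2, g3, g4, g5⟩ := hEXZ K {P | Pool.T1.SplV E₀ (Pool.T1.vP K P)}
      (fun A => by
        obtain ⟨P, h5, h6⟩ := hSPL K E₀ h1 h2 A
        exact ⟨P, h6, h5⟩) T' (by rw [← hD0T]; exact hD0.2.2.2) k b
    exact ⟨ofD D, g1, g2, g3, fun P hP => ⟨(g4 P hP).1, (spl_iff P E₀).1 (g4 P hP).2⟩, g5⟩
  · obtain ⟨hdS, hall⟩ := hb D hD hDT hDk hDb
    exact ⟨hdS, fun dS hdS' => ⟨tow_of hCTR hSLN hIRR hD hdS', hall dS hdS'⟩⟩

end Ext

end Pool.PNT
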