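import Pool.Agent.H29.PNM.Defs

/-!
# The Poonen-Rains law over a number field, with the Selmer groups over extensions: definitions

The definitions of `H29/PNM/Defs` are used.  `K` is a number field, `E` an extension of `K`; the
elliptic curve `y² = q(x)`, `q` over `K`, is also considered over `E`.
-/

set_option autoImplicit false

namespace Pool.PNT

open Polynomial NumberField IsDedekindDomain Pool.PNM

section Ext

variable (K : Type) [Field K] [NumberField K]

/-- `L`, with the valuation ring `O`, is a completion of the extension `E` of `K` at a place above the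
place `P` of `K`. -/
def Abv (P : Pl K) (E : Type) [Field E] [Algebra K E] (L : Type) [Field L]
    (O : ValuationSubring L) (ι : E →+* L) : Prop :=
  Cpl E L O ι ∧ O.comap (ι.comp (algebraMap K E)) = (P.valuation K).valuationSubring

/-- The place `P` splits completely in `E`: `K` is dense in every completion of `E` at a place
above `P`. -/
def Spl (P : Pl K) (E : Type) [Field E] [Algebra K E] : Prop :=
  ∀ (L : Type) [Field L] (O : ValuationSubring L) (ι : E →+* L), Abv K P E L O ι →
    ∀ z a : L, a ≠ 0 → ∃ x : K, (z - ι (algebraMap K E x)) / a ∈ O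

/-- The place `P` is unramified in `E`: the maximal ideal of every completion of `E` at a place
above `P` is generated by elements of `K`. -/
def Unr (P : Pl K) (E : Type) [Field E] [Algebra K E] : Prop :=
  ∀ (L : Type) [Field L] (O : ValuationSubring L) (ι : E →+* L), Abv K P E L O ι →
    ∀ z : L, z ∈ O → z⁻¹ ∉ O → ∃ x : K, x ∈ (P.valuation K).valuationSubring ∧
      x⁻¹ ∉ (P.valuation K).valuationSubring ∧ z / ι (algebraMap K E x) ∈ O

/-- `E` is a finite Galois extension of `K`, its degree is a power of two and the places above `2`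
split completely. -/
def Two (E : Type) [Field E] [Algebra K E] : Prop :=
  FiniteDimensional K E ∧ IsGalois K E ∧ (∃ m : ℕ, Module.finrank K E = 2 ^ m) ∧
    ∀ P : Pl K, (2 : 𝓞 K) ∈ P.asIdeal → Spl K P E

/-- Moreover the places of `T` split completely in `E`, and every other place is unramified in `E`
or `f` is irreducible modulo this place. -/
def Ext (T : Finset (Pl K)) (f : (𝓞 K)[X]) (E : Type) [Field E] [Algebra K E] : Prop :=
  Two K E ∧ (∀ P ∈ T, Spl K P E) ∧ ∀ P : Pl K, Unr K P E ∨ Irreducible (md P.asIdeal f)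

variable {K}

open Classical in
/-- Over the extension `E` of degree `n` of `K` the 2-Selmer group of `y² = q(x)` is finite and has
at most `2^(r n)` elements, the group of points is finitely generated of rank at most `r n`, and it is
finite of odd order if `r = 0`. -/
def Rk (q : K[X]) (r : ℕ) (E : Type) [Field E] [Algebra K E] : Prop :=
  (Sel (q.map (algebraMap K E))).Finite ∧
  (Sel (q.map (algebraMap K E))).ncard ≤ 2 ^ (r * Module.finrank K E) ∧
  AddGroup.FG (Pts (q.map (algebraMap K E))) ∧
  Module.finrank ℤ (Pts (q.map (algebraMap K E))) ≤ r * Module.finrank K E ∧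
  (r = 0 → Finite (Pts (q.map (algebraMap K E))) ∧ Odd (Nat.card (Pts (q.map (algebraMap K E)))))

/-- All twists of the elements of the family over all these extensions. -/
def Tow (D : Data K) (dS : Finset (Pl K) → 𝓞 K) : Prop :=
  ∀ Y : ℕ, 1 ≤ Y → ∀ f ∈ Fam D Y, ∀ S ⊆ D.T, ∀ r : ℕ, (Sel (tw (dS S) f)).ncard = 2 ^ r →
    ∀ (E : Type) [Field E] [Algebra K E], Ext K D.T f E → Rk (tw (dS S) f) r E

end Ext

section Main

variable (K : Type) [Field K] [NumberField K]

/-- The law up to `ε` for families of positive density, and the bound over the extensions.  Data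
exist, also of trace zero and with `T` split completely in a given extension `E₀` of `K` which is
unramified outside `T'`. -/
def Main : Prop :=
  ∃ A : Finset (Pl K), ∀ T' : Finset (Pl K), A ⊆ T' →
    ∀ ε : ℝ, 0 < ε → ∃ k₀ : ℕ, ∀ k : ℕ, Odd k → k₀ ≤ k → ∃ b : ℕ,
    (∀ (E₀ : Type) [Field E₀] [Algebra K E₀], Two K E₀ → (∀ P : Pl K, P ∉ T' → Unr K P E₀) →
      ∃ D : Data K, D.Ok ∧ D.T' = T' ∧ D.T.card = k ∧ (∀ P ∈ D.T, b < Nm P ∧ Spl K P E₀) ∧
        D.Tr0) ∧
    ∀ D : Data K, D.Ok → D.T' = T' → D.T.card = k → (∀ P ∈ D.T, b < Nm P) →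
    (∃ dS : Finset (Pl K) → 𝓞 K, Tws D dS) ∧
    ∀ dS : Finset (Pl K) → 𝓞 K, Tws D dS → Tow D dS ∧
    ∀ E : ℕ, 1 ≤ E → (∀ S ⊆ D.T, dS S ∈ Bx K (E : ℝ)) → Law ε D dS E

open Classical in
/-- The conditions on the polynomial `q`: it is irreducible, the 2-Selmer group over `K` has `2^r`
elements, the rank is at most `r`, the group of points is finite of odd order if `r = 0`; and the
bounds over `E₀` and over the extensions `E`. -/
def Good (r : ℕ) (T : Finset (Pl K)) (E₀ : Type) [Field E₀] [Algebra K E₀] (q : K[X]) : Prop :=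
  Irreducible q ∧ (Sel q).ncard = 2 ^ r ∧ AddGroup.FG (Pts q) ∧ Module.finrank ℤ (Pts q) ≤ r ∧
    (r = 0 → Finite (Pts q) ∧ Odd (Nat.card (Pts q))) ∧ Rk q r E₀ ∧
    ∀ f : (𝓞 K)[X], f.map (algebraMap (𝓞 K) K) = q → ∀ (E : Type) [Field E] [Algebra K E],
      Ext K T f E → Rk q r E

/-- For every `r` and every extension `E₀` there is a finite set `T` of places which split completely
in `E₀` such that a positive proportion of all curves, ordered by height, has these properties; also
for the curves with `a_1 = 0`. -/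
def Ranks : Prop :=
  ∀ (r : ℕ) (E₀ : Type) [Field E₀] [Algebra K E₀], Two K E₀ →
    ∃ T : Finset (Pl K), (∀ P ∈ T, Spl K P E₀) ∧
    ∃ δ : ℝ, 0 < δ ∧ ∃ Y₀ : ℝ, ∀ Y : ℝ, Y₀ ≤ Y → (All K Y).Finite ∧
    0 < {f | f ∈ All K Y ∧ f.coeff 2 = 0}.ncard ∧
    δ * (All K Y).ncard ≤ {f | f ∈ All K Y ∧ Good K r T E₀ f}.ncard ∧
    δ * {f | f ∈ All K Y ∧ f.coeff 2 = 0}.ncard ≤
      {f | (f ∈ All K Y ∧ f.coeff 2 = 0) ∧ Good K r T E₀ f}.ncard

end Main

end Pool.PNT
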