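import Pool.Agent.H70.PNT.Bridge

/-!
# PNT: all 2-Selmer ranks occur in positive proportion, with the bounds over the extensions
-/

set_option autoImplicit false
set_option linter.unusedSectionVars false

namespace Pool.PNT

open Polynomial NumberField IsDedekindDomain Pool.T1 Pool.NF Pool.PNF
open Pool.PNM (Pl)

section Core

variable {K : Type} [Field K] [NumberField K]

open Pool.PNF.RNKN in
/-- From `PosLN` to the number of polynomials with a given Selmer rank and the property `Φ`. -/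
theorem coreP (r : ℕ) (ε c : ℝ) (hr : 0 < PRL.PR r) (hε : ε ≤ PRL.PR r / 2) (hc : 0 < c)
    (S : Set (𝓞 K)[X]) (hS : S.Finite) (Z : Set K[X])
    (hP : PosLN ε c Z ((fun f : (𝓞 K)[X] => fk K f) '' S)) (Φ : (𝓞 K)[X] → Prop)
    (hΦ : ∀ f : (𝓞 K)[X], fk K f ∈ Z → (SelN (fk K f)).ncard = 2 ^ r → Φ f) :
    PRL.PR r / 2 * (c * S.ncard) ≤ {f ∈ S | Irreducible (fk K f) ∧ (SelN (fk K f)).Finite ∧
        (SelN (fk K f)).ncard = 2 ^ r ∧ Φ f}.ncard := by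
  obtain ⟨hZH, hHf, hH0, hcH, hirr, ⟨hlaw, -, -⟩, -⟩ := hP
  rw [Set.ncard_image_of_injective _ fk_inj] at hcH hH0
  set W : Set (𝓞 K)[X] := {f ∈ S | Irreducible (fk K f) ∧ (SelN (fk K f)).Finite ∧
        (SelN (fk K f)).ncard = 2 ^ r ∧ Φ f} with hW
  have hWf : W.Finite := hS.subset fun f hf => hf.1
  have hZpos : (0 : ℝ) < Z.ncard := by
    refine lt_of_lt_of_le ?_ hcH
    have : (0 : ℝ) < S.ncard := by exact_mod_cast hH0
    positivity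
  have h1 := hlaw (r + 1)
  have h2 : |({f | f ∈ Z ∧ (SelN f).ncard = 2 ^ r}.ncard : ℝ) / Z.ncard - PRL.PR r| ≤ ε := by
    refine le_trans ?_ h1
    exact Finset.single_le_sum
      (f := fun r => |({f | f ∈ Z ∧ (SelN f).ncard = 2 ^ r}.ncard : ℝ) / Z.ncard - PRL.PR r|)
      (fun i _ => abs_nonneg _) (Finset.mem_range.2 (Nat.lt_succ_self r))
  have h3 := (abs_le.1 h2).1
  have h4 : PRL.PR r / 2 ≤ ({f | f ∈ Z ∧ (SelN f).ncard = 2 ^ r}.ncard : ℝ) / Z.ncard := by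
    linarith
  rw [le_div_iff₀ hZpos] at h4
  have h5 : {f | f ∈ Z ∧ (SelN f).ncard = 2 ^ r} ⊆ (fun f : (𝓞 K)[X] => fk K f) '' W := by
    rintro g ⟨hg, hgr⟩
    obtain ⟨f, hf, rfl⟩ := hZH hg
    refine ⟨f, ⟨hf, hirr _ hg, ?_, hgr, hΦ f hg hgr⟩, rfl⟩
    refine Set.finite_of_ncard_pos ?_
    rw [hgr]
    positivity
  have h6 : ({f | f ∈ Z ∧ (SelN f).ncard = 2 ^ r}.ncard : ℝ) ≤ W.ncard := by
    have := Set.ncard_le_ncard h5 (hWf.image _)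
    rw [Set.ncard_image_of_injective _ fk_inj] at this
    exact_mod_cast this
  calc PRL.PR r / 2 * (c * S.ncard) ≤ PRL.PR r / 2 * Z.ncard :=
        mul_le_mul_of_nonneg_left hcH (by positivity)
    _ ≤ _ := h4
    _ ≤ _ := h6

end Core

open Pool.PNF.RNKN in
/-- The positive proportion of the curves with a given Selmer rank, with a property `Φ` which holds
for the twists of the elements of the family. -/
theorem rnkg (hALL : ALLNStmt) (K : Type) [Field K] [NumberField K] (r : ℕ)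
    (Φ : (𝓞 K)[X] → Prop) (D : DatN K)
    (dS : Finset (HeightOneSpectrum (𝓞 K)) → 𝓞 K)
    (hmain2 : ∀ E : ℕ, 1 ≤ E → (∀ S ⊆ D.T, dS S ∈ Bx K (E : ℝ)) →
      ∃ c : ℝ, 0 < c ∧ ∃ Y₀ : ℕ, ∀ Y : ℕ, Y₀ ≤ Y →
      PosLN (PRL.PR r / 2) c (ZAN D dS (FamSN D Y))
        ((fun f : (𝓞 K)[X] => fk K f) '' AllN K (2 * E * Y)) ∧
      PosLN (PRL.PR r / 2) c (ZAN D dS (FamZSN D Y))
        {f | f ∈ (fun f : (𝓞 K)[X] => fk K f) '' AllN K (2 * E * Y) ∧ f.coeff 2 = 0})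
    (hΦ : ∀ Y : ℕ, 1 ≤ Y → ∀ f : (𝓞 K)[X], fk K f ∈ ZAN D dS (FamSN D Y) →
      (SelN (fk K f)).ncard = 2 ^ r → Φ f) :
    ∃ δ : ℝ, 0 < δ ∧ ∃ Y₀ : ℝ, ∀ Y : ℝ, Y₀ ≤ Y → (AllN K Y).Finite ∧
    0 < {f ∈ AllN K Y | f.coeff 2 = 0}.ncard ∧
    δ * (AllN K Y).ncard ≤
      {f ∈ AllN K Y | Irreducible (fk K f) ∧ (SelN (fk K f)).Finite ∧
        (SelN (fk K f)).ncard = 2 ^ r ∧ Φ f}.ncard ∧
    δ * {f ∈ AllN K Y | f.coeff 2 = 0}.ncard ≤
      {f ∈ AllN K Y | f.coeff 2 = 0 ∧ Irreducible (fk K f) ∧ (SelN (fk K f)).Finite ∧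
        (SelN (fk K f)).ncard = 2 ^ r ∧ Φ f}.ncard := by
  classical
  have hr : 0 < PRL.PR r := PRL.idn.1 r
  -- the size of the twists
  set E : ℕ := 1 + ⌈∑ S ∈ D.T.powerset, ∑ σ : K →+* ℂ, ‖σ (dS S : K)‖⌉₊ with hE
  have hE1 : 1 ≤ E := by omega
  have hEd : ∀ S ⊆ D.T, dS S ∈ Bx K (E : ℝ) := by
    intro S hS σ
    have h1 : ‖σ (dS S : K)‖ ≤ ∑ σ : K →+* ℂ, ‖σ (dS S : K)‖ :=
      Finset.single_le_sum (f := fun σ : K →+* ℂ => ‖σ (dS S : K)‖)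
        (fun i _ => norm_nonneg _) (Finset.mem_univ σ)
    have h2 : ∑ σ : K →+* ℂ, ‖σ (dS S : K)‖ ≤
        ∑ S ∈ D.T.powerset, ∑ σ : K →+* ℂ, ‖σ (dS S : K)‖ :=
      Finset.single_le_sum (f := fun S => ∑ σ : K →+* ℂ, ‖σ (dS S : K)‖)
        (fun i _ => Finset.sum_nonneg fun j _ => norm_nonneg _) (Finset.mem_powerset.2 hS)
    have h3 := Nat.le_ceil (∑ S ∈ D.T.powerset, ∑ σ : K →+* ℂ, ‖σ (dS S : K)‖)
    have h4 : (⌈∑ S ∈ D.T.powerset, ∑ σ : K →+* ℂ, ‖σ (dS S : K)‖⌉₊ : ℝ) ≤ (E : ℝ) := by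
      rw [hE]
      push_cast
      linarith
    linarith
  obtain ⟨c, hc, Y₀, hY₀⟩ := hmain2 E hE1 hEd
  obtain ⟨a, Cc, ha, hCc, hall⟩ := hALL K
  set n : ℕ := dg K with hn
  have hEr : (1 : ℝ) ≤ E := by exact_mod_cast hE1
  have hE2 : (0 : ℝ) < 2 * E := by positivity
  set p : ℝ := PRL.PR r / 2 with hp
  have hp0 : 0 < p := by positivity
  set δ₁ : ℝ := p * c * a / (2 ^ (6 * n) * Cc) with hδ₁
  set δ₂ : ℝ := p * c * a / (2 ^ (5 * n) * Cc * Cc) with hδ₂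
  have hd1 : 0 < δ₁ := by positivity
  have hd2 : 0 < δ₂ := by positivity
  refine ⟨min δ₁ δ₂, lt_min hd1 hd2, 2 * E * ((max Y₀ 1 : ℕ) : ℝ), fun Y hY => ?_⟩
  set Y' : ℕ := ⌊Y / (2 * E)⌋₊ with hY'
  have hYm : max Y₀ 1 ≤ Y' := by
    rw [hY']
    refine Nat.le_floor ?_
    rw [le_div_iff₀ hE2, mul_comm]
    exact hY
  have hy1 : Y₀ ≤ Y' := by omega
  have hy4 : 1 ≤ Y' := by omega
  have hy4r : (1 : ℝ) ≤ Y' := by exact_mod_cast hy4
  have hYpos : 0 ≤ Y / (2 * E) := by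
    by_contra hcon
    have : Y' = 0 := by
      rw [hY']
      exact Nat.floor_of_nonpos (by linarith)
    omega
  have hle : (2 * E * Y' : ℝ) ≤ Y := by
    have := Nat.floor_le hYpos
    rw [← hY', le_div_iff₀ hE2] at this
    linarith
  have hge : Y ≤ 2 * (2 * E * Y') := by
    have := Nat.lt_floor_add_one (Y / (2 * E))
    rw [← hY', div_lt_iff₀ hE2] at this
    nlinarith
  set X' : ℝ := 2 * E * Y' with hX'
  have hXone : 1 ≤ X' := by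
    rw [hX']
    nlinarith
  have hX0 : 0 ≤ X' := by linarith
  have hYone : 1 ≤ Y := hXone.trans hle
  have hY0 : 0 ≤ Y := by linarith
  obtain ⟨hfin, -, hup, hpos2, hup2, -, -⟩ := hall Y hYone
  obtain ⟨hfinX, hloX, -, -, -, hBX, hBXu⟩ := hall X' hXone
  obtain ⟨hP1, hP2⟩ := hY₀ Y' hy1
  have hsub : AllN K X' ⊆ AllN K Y := alln_mono hX0 hle
  have hS2f : {f ∈ AllN K X' | f.coeff 2 = 0}.Finite := hfinX.subset fun f hf => hf.1
  have hH2 : {f | f ∈ (fun f : (𝓞 K)[X] => fk K f) '' AllN K (2 * E * Y') ∧ f.coeff 2 = 0} =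
      (fun f : (𝓞 K)[X] => fk K f) '' {f ∈ AllN K X' | f.coeff 2 = 0} := by
    ext g
    constructor
    · rintro ⟨⟨f, hf, rfl⟩, h⟩
      exact ⟨f, ⟨hf, (fk_coeff2 f).1 h⟩, rfl⟩
    · rintro ⟨f, ⟨hf, h⟩, rfl⟩
      exact ⟨⟨f, hf, rfl⟩, (fk_coeff2 f).2 h⟩
  rw [hH2] at hP2
  have hc1 := coreP r p c hr le_rfl hc (AllN K X') hfinX _ hP1 Φ (hΦ Y' hy4)
  have hc2 := coreP r p c hr le_rfl hc {f ∈ AllN K X' | f.coeff 2 = 0} hS2f _ hP2 Φ
    (fun f hf => hΦ Y' hy4 f (by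
      obtain ⟨g, hg, S, hS, e⟩ := hf
      exact ⟨g, ⟨hg.1.1, hg.2⟩, S, hS, e⟩))
  have hYX : Y ^ (6 * n) ≤ 2 ^ (6 * n) * X' ^ (6 * n) := by
    rw [← mul_pow]
    exact pow_le_pow_left₀ hY0 hge _
  have hYX5 : Y ^ (5 * n) ≤ 2 ^ (5 * n) * X' ^ (5 * n) := by
    rw [← mul_pow]
    exact pow_le_pow_left₀ hY0 hge _
  refine ⟨hfin, hpos2, ?_, ?_⟩
  · have h1 : δ₁ * (AllN K Y).ncard ≤ p * (c * (AllN K X').ncard) := by
      calc δ₁ * ((AllN K Y).ncard : ℝ) ≤ δ₁ * (Cc * (2 ^ (6 * n) * X' ^ (6 * n))) :=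
            mul_le_mul_of_nonneg_left (hup.trans (mul_le_mul_of_nonneg_left hYX hCc.le)) hd1.le
        _ = p * (c * (a * X' ^ (6 * n))) := by
            rw [hδ₁]
            field_simp
        _ ≤ p * (c * (AllN K X').ncard) :=
            mul_le_mul_of_nonneg_left (mul_le_mul_of_nonneg_left hloX hc.le) hp0.le
    have h2 : ({f ∈ AllN K X' | Irreducible (fk K f) ∧ (SelN (fk K f)).Finite ∧
        (SelN (fk K f)).ncard = 2 ^ r ∧ Φ f}.ncard : ℝ) ≤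
        {f ∈ AllN K Y | Irreducible (fk K f) ∧ (SelN (fk K f)).Finite ∧
        (SelN (fk K f)).ncard = 2 ^ r ∧ Φ f}.ncard := by
      refine Nat.cast_le.2 (Set.ncard_le_ncard ?_ (hfin.subset fun f hf => hf.1))
      rintro f ⟨hf1, hf2⟩
      exact ⟨hsub hf1, hf2⟩
    calc min δ₁ δ₂ * ((AllN K Y).ncard : ℝ) ≤ δ₁ * (AllN K Y).ncard :=
          mul_le_mul_of_nonneg_right (min_le_left _ _) (Nat.cast_nonneg _)
      _ ≤ _ := h1.trans (hc1.trans h2)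
  · have h0 : a * X' ^ (5 * n) ≤ Cc * ({f ∈ AllN K X' | f.coeff 2 = 0}.ncard : ℝ) := by
      have h3 : ((AllN K X').ncard : ℝ) ≤
          (Bx K X').ncard * ({f ∈ AllN K X' | f.coeff 2 = 0}.ncard : ℝ) := by
        exact_mod_cast all_prod X' hBX hfinX hX0
      have h4 : a * (X' ^ (5 * n) * X' ^ n) ≤
          Cc * X' ^ n * ({f ∈ AllN K X' | f.coeff 2 = 0}.ncard : ℝ) := by
        have e : 6 * n = 5 * n + n := by ring
        rw [← pow_add, ← e]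
        exact hloX.trans (h3.trans (mul_le_mul_of_nonneg_right hBXu (Nat.cast_nonneg _)))
      have h5 : 0 < X' ^ n := by positivity
      refine le_of_mul_le_mul_right ?_ h5
      calc a * X' ^ (5 * n) * X' ^ n = a * (X' ^ (5 * n) * X' ^ n) := by ring
        _ ≤ _ := h4
        _ = _ := by ring
    have h1 : δ₂ * ({f ∈ AllN K Y | f.coeff 2 = 0}.ncard : ℝ) ≤
        p * (c * ({f ∈ AllN K X' | f.coeff 2 = 0}.ncard : ℝ)) := by
      calc δ₂ * ({f ∈ AllN K Y | f.coeff 2 = 0}.ncard : ℝ) ≤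
            δ₂ * (Cc * (2 ^ (5 * n) * X' ^ (5 * n))) :=
            mul_le_mul_of_nonneg_left (hup2.trans (mul_le_mul_of_nonneg_left hYX5 hCc.le)) hd2.le
        _ = p * (c * ((a * X' ^ (5 * n)) / Cc)) := by
            rw [hδ₂]
            field_simp
        _ ≤ p * (c * ({f ∈ AllN K X' | f.coeff 2 = 0}.ncard : ℝ)) := by
            refine mul_le_mul_of_nonneg_left (mul_le_mul_of_nonneg_left ?_ hc.le) hp0.le
            rw [div_le_iff₀ hCc]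
            linarith [h0]
    have h2 : ({f ∈ {f ∈ AllN K X' | f.coeff 2 = 0} | Irreducible (fk K f) ∧
        (SelN (fk K f)).Finite ∧ (SelN (fk K f)).ncard = 2 ^ r ∧ Φ f}.ncard : ℝ) ≤
        {f ∈ AllN K Y | f.coeff 2 = 0 ∧ Irreducible (fk K f) ∧ (SelN (fk K f)).Finite ∧
        (SelN (fk K f)).ncard = 2 ^ r ∧ Φ f}.ncard := by
      refine Nat.cast_le.2 (Set.ncard_le_ncard ?_ (hfin.subset fun f hf => hf.1))
      rintro f ⟨⟨hf1, hf2⟩, hf3⟩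
      exact ⟨hsub hf1, hf2, hf3⟩
    calc min δ₁ δ₂ * ({f ∈ AllN K Y | f.coeff 2 = 0}.ncard : ℝ) ≤
          δ₂ * ({f ∈ AllN K Y | f.coeff 2 = 0}.ncard : ℝ) :=
          mul_le_mul_of_nonneg_right (min_le_right _ _) (Nat.cast_nonneg _)
      _ ≤ _ := h1.trans (hc2.trans h2)

end Pool.PNT
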