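import Pool.Agent.H70.PNT.RNKG

/-!
# PNT: the second main statement
-/

set_option autoImplicit false
set_option linter.unusedSectionVars false

namespace Pool.PNT

open Polynomial NumberField IsDedekindDomain Pool.PNM

variable {K : Type} [Field K] [NumberField K]

/-- The properties of the twists of the elements of the family. -/
def Phi (r : ℕ) (T : Finset (Pl K)) (E₀ : Type) [Field E₀] [Algebra K E₀] (f : (𝓞 K)[X]) : Prop :=
  Rk (Pool.T1.fk K f) r E₀ ∧ ∀ (E : Type) [Field E] [Algebra K E], Ext K T f E →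
    Rk (Pool.T1.fk K f) r E

theorem good_of {r : ℕ} {T : Finset (Pl K)} {E₀ : Type} [Field E₀] [Algebra K E₀] {Y : ℝ}
    {f : (𝓞 K)[X]} (hq : Pool.T1.fk K f ∈ All K Y) (hi : Irreducible (Pool.T1.fk K f))
    (hfin : (Sel (Pool.T1.fk K f)).Finite) (hs : (Sel (Pool.T1.fk K f)).ncard = 2 ^ r)
    (hΦ : Phi r T E₀ f) : Good K r T E₀ (Pool.T1.fk K f) := by
  obtain ⟨h1, h2, h3, h4, h5⟩ := rk_mem hq hi hfin hs
  refine ⟨h1, h2, h3, h4, h5, hΦ.1, fun f' hf' E _ _ hE => ?_⟩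
  have : f' = f := fk_inj hf'
  rw [this] at hE
  exact hΦ.2 E hE

theorem ranks_of' (hALL : Pool.NF.ALLNStmt) (hCTR : Pool.RZT.CTRNStmt)
    (hSLN : Pool.PNF.SLNStmt) (hIRR : Pool.NF.IRRNStmt) (hEXZ : Pool.RZT.EXZTNStmt)
    (hSPL : Pool.RZT.SPLNStmt) (hRAM : Pool.RZT.RAMNStmt) (hIRS : Pool.T1.ZIRSStmt)
    (h : Pool.PNF.LawNF K) : Ranks K := by
  classical
  intro r E₀ _ _ hE₀
  obtain ⟨A, hA⟩ := h
  obtain ⟨g1, g2, g3, g4⟩ := id hE₀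
  obtain ⟨V, hV⟩ := hRAM K E₀ g1 g2
  have hr : 0 < PRL.PR r := PRL.idn.1 r
  obtain ⟨k₀, hk⟩ := hA (A ∪ V) Finset.subset_union_left (PRL.PR r / 2) (by positivity)
  obtain ⟨b, ⟨D0, hD0, hD0T, -, -, -⟩, hmain⟩ := hk (2 * k₀ + 1) ⟨k₀, rfl⟩ (by omega)
  obtain ⟨D, hD, hDT, hcard, hb, htr⟩ := hEXZ K {P | Pool.T1.SplV E₀ (Pool.T1.vP K P)}
    (fun A => by
      obtain ⟨P, h5, h6⟩ := hSPL K E₀ g1 g2 A
      exact ⟨P, h6, h5⟩) (A ∪ V) (by rw [← hD0T]; exact hD0.2.2.2) (2 * k₀ + 1) b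
  obtain ⟨⟨dS, hdS⟩, hmain2⟩ := hmain D hD hDT hcard (fun P hP => (hb P hP).1)
  have hsp : ∀ P ∈ D.T, Spl K P E₀ := fun P hP => (spl_iff P E₀).1 (hb P hP).2
  have htow : Tow (ofD D) dS := tow_of hCTR hSLN hIRR (D := ofD D) hD hdS
  have hΦ : ∀ Y : ℕ, 1 ≤ Y → ∀ f : (𝓞 K)[X],
      Pool.T1.fk K f ∈ Pool.PNF.ZAN D dS (Pool.PNF.FamSN D Y) →
      (Pool.PNF.SelN (Pool.T1.fk K f)).ncard = 2 ^ r → Phi r D.T E₀ f := by
    rintro Y hY f ⟨g, hg, S, hS, e⟩ hs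
    have hfg : f = g.scaleRoots (dS S) := fk_inj e
    subst hfg
    have hST : S ⊆ D.T := by
      have := (Finset.mem_filter.1 hS).1
      exact Finset.mem_powerset.1 this
    have hs' : (Sel (tw (dS S) g)).ncard = 2 ^ r := by
      rw [← sel_eq]
      exact hs
    have hgm : g.Monic := hg.1.1
    have hgn : g.natDegree = 3 := hg.1.2.1
    refine ⟨htow Y hY g hg S hST r hs' E₀ ⟨hE₀, hsp, fun P => ?_⟩, fun E _ _ hE =>
      htow Y hY g hg S hST r hs' E ⟨hE.1, hE.2.1, fun P => (hE.2.2 P).imp_right fun h1 =>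
        (hIRS (𝓞 K) P (dS S) g hgm (by rw [hgn]; omega)).1 h1⟩⟩
    by_cases hP : P ∈ V
    · right
      have hPT' : P ∈ D.T' := by
        rw [hDT]
        exact Finset.mem_union_right _ hP
      have h5 : md P.asIdeal g = md P.asIdeal (D.ρ P) := by
        ext i
        rw [coeff_map, coeff_map, Ideal.Quotient.eq, ← coeff_sub]
        exact hg.1.2.2.2.2 P hPT' i
      rw [h5]
      exact (hD.2.2.1 P hPT').2.2
    · exact Or.inl ((unr_iff P E₀).1 (hV P hP))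
  obtain ⟨δ, hδ, Y₀, hY⟩ := rnkg hALL K r (Phi r D.T E₀) D dS (fun E hE1 hE => by
    obtain ⟨c, hc, Y₀, hY₀⟩ := hmain2 dS hdS E hE1 hE
    exact ⟨c, hc, Y₀, fun Y hYY => ⟨(hY₀ Y hYY).1, (hY₀ Y hYY).2.2 htr⟩⟩) hΦ
  refine ⟨D.T, hsp, δ, hδ, Y₀, fun Y hYY => ?_⟩
  obtain ⟨h1, h2, h3, h4⟩ := hY Y hYY
  have hfin : (All K Y).Finite := by
    rw [← all_eq]
    exact h1.image _
  have e1 : (All K Y).ncard = (Pool.NF.AllN K Y).ncard := by
    rw [← all_eq]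
    exact Set.ncard_image_of_injective _ fk_inj
  have e2 : {f | f ∈ All K Y ∧ f.coeff 2 = 0} =
      (fun f : (𝓞 K)[X] => Pool.T1.fk K f) '' {f ∈ Pool.NF.AllN K Y | f.coeff 2 = 0} := by
    ext q
    constructor
    · rintro ⟨⟨f, g1, g2, g3, rfl⟩, g4⟩
      refine ⟨f, ⟨⟨g1, g2, g3⟩, ?_⟩, rfl⟩
      rw [coeff_map] at g4
      exact (IsFractionRing.injective (𝓞 K) K) (by rw [g4, map_zero])
    · rintro ⟨f, ⟨⟨g1, g2, g3⟩, g4⟩, rfl⟩
      refine ⟨⟨f, g1, g2, g3, rfl⟩, ?_⟩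
      show (Polynomial.map _ f).coeff 2 = 0
      rw [coeff_map, g4, map_zero]
  have e3 : {f | f ∈ All K Y ∧ f.coeff 2 = 0}.ncard =
      {f ∈ Pool.NF.AllN K Y | f.coeff 2 = 0}.ncard := by
    rw [e2]
    exact Set.ncard_image_of_injective _ fk_inj
  rw [e3, e1]
  refine ⟨hfin, h2, h3.trans ?_, h4.trans ?_⟩
  · have hsub : (fun f : (𝓞 K)[X] => Pool.T1.fk K f) ''
        {f ∈ Pool.NF.AllN K Y | Irreducible (Pool.T1.fk K f) ∧
        (Pool.PNF.SelN (Pool.T1.fk K f)).Finite ∧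
        (Pool.PNF.SelN (Pool.T1.fk K f)).ncard = 2 ^ r ∧ Phi r D.T E₀ f} ⊆
        {f | f ∈ All K Y ∧ Good K r D.T E₀ f} := by
      rintro _ ⟨f, ⟨g1, g2, g3, g4, g5⟩, rfl⟩
      rw [sel_eq] at g3 g4
      have hq : Pool.T1.fk K f ∈ All K Y := by
        rw [← all_eq]
        exact ⟨f, g1, rfl⟩
      exact ⟨hq, good_of hq g2 g3 g4 g5⟩
    have h5 := Set.ncard_le_ncard hsub (hfin.subset fun f hf => hf.1)
    rw [Set.ncard_image_of_injective _ fk_inj] at h5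
    exact_mod_cast h5
  · have hsub : (fun f : (𝓞 K)[X] => Pool.T1.fk K f) ''
        {f ∈ Pool.NF.AllN K Y | f.coeff 2 = 0 ∧ Irreducible (Pool.T1.fk K f) ∧
        (Pool.PNF.SelN (Pool.T1.fk K f)).Finite ∧
        (Pool.PNF.SelN (Pool.T1.fk K f)).ncard = 2 ^ r ∧ Phi r D.T E₀ f} ⊆
        {f | (f ∈ All K Y ∧ f.coeff 2 = 0) ∧ Good K r D.T E₀ f} := by
      rintro _ ⟨f, ⟨g1, g0, g2, g3, g4, g5⟩, rfl⟩
      rw [sel_eq] at g3 g4
      have hq : Pool.T1.fk K f ∈ All K Y := by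
        rw [← all_eq]
        exact ⟨f, g1, rfl⟩
      have hq0 : (Pool.T1.fk K f).coeff 2 = 0 := by
        show (Polynomial.map _ f).coeff 2 = 0
        rw [coeff_map, g0, map_zero]
      exact ⟨⟨hq, hq0⟩, good_of hq g2 g3 g4 g5⟩
    have h5 := Set.ncard_le_ncard hsub (hfin.subset fun f hf => hf.1.1)
    rw [Set.ncard_image_of_injective _ fk_inj] at h5
    exact_mod_cast h5

end Pool.PNT
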